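import Pool.Agent.H57.AR.Targets

/-!
# All reducts, all arities (MP_6ab439_lc), row GENR: generic placement
-/

set_option autoImplicit false

namespace Pool.Agent.H13.AR

open Pool.Agent.H57.AR
open Pool.Agent.H68.BP Pool.Agent.H58.SF Pool.Agent.H53.GC Pool.Agent.H53.NR Pool.Agent.H53.GR
open Pool.Agent.H57.SO (Pal Col vt)
open Function

theorem pf_GENR (hSYR : T_SYR) : T_GENR := by
  intro σ ρ V S X _ P 𝔸 𝔹 M c hs I W _ _ rk hrk G
  classical
  let W' : Type := Σ i : I, Set.range (G i)
  have hfin1 : ∀ i, Finite (Set.range (G i)) := fun i => Set.finite_range (G i)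
  have hfin : Finite W' := inferInstance
  let rk' : W' → ℕ ×ₗ V := fun w => toLex (rk w.1, w.2.1)
  let u : W' → V := fun w => w.2.1
  have hinj : Injective rk' := by
    rintro ⟨i, v, hv⟩ ⟨j, v', hv'⟩ h
    have h1 : (rk i, v) = (rk j, v') := toLex.injective h
    have h2 : i = j := hrk (congrArg Prod.fst h1)
    have h3 : v = v' := congrArg Prod.snd h1
    subst h2
    subst h3
    rfl
  obtain ⟨f, hf1, hf2, -, -⟩ := hSYR σ ρ V S X P 𝔸 𝔹 M c hs W' (ℕ ×ₗ V) rk' u
    (fun w w' => w.1 = w'.1) hinj (fun _ _ h => h.symm)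
  have hfi : Injective f := by
    intro x y hxy
    apply hinj
    rcases lt_trichotomy (rk' x) (rk' y) with h | h | h
    · exact absurd ((hf1 x y).2 h) (by rw [hxy]; exact lt_irrefl _)
    · exact h
    · exact absurd ((hf1 y x).2 h) (by rw [hxy]; exact lt_irrefl _)
  -- the names
  let nm : (i : I) → W → W' := fun i w => ⟨i, G i w, w, rfl⟩
  have hnm : ∀ i a b, nm i a = nm i b ↔ G i a = G i b := by
    intro i a b
    constructor
    · intro h
      exact congrArg u h
    · intro h
      have h3 : (⟨G i a, a, rfl⟩ : Set.range (G i)) = ⟨G i b, b, rfl⟩ := Subtype.ext h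
      exact congrArg (Sigma.mk i) h3
  refine ⟨fun i w => f (nm i w), fun i => ⟨?_, fun a b => ?_⟩, fun i j a b hij => ?_,
    fun l z hz a b => ?_⟩
  · refine Prod.ext ?_ ?_
    · funext a b
      exact propext (hfi.eq_iff.trans (hnm i a b))
    · funext l z
      refine propext ?_
      show 𝔹 l (fun a => f (nm i (z a))) ↔ 𝔹 l (fun a => G i (z a))
      rw [hf2 l (fun a => nm i (z a))]
      refine ⟨fun h => h.1, fun h => ⟨h, fun a b => ?_⟩⟩
      by_cases hab : G i (z a) = G i (z b)
      · exact Or.inl ((hnm i _ _).2 hab)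
      · exact Or.inr ⟨rfl, hab⟩
  · show f (nm i a) < f (nm i b) ↔ _
    rw [hf1]
    show toLex (rk i, G i a) < toLex (rk i, G i b) ↔ _
    rw [Prod.Lex.toLex_lt_toLex]
    simp
  · show f (nm i a) < f (nm j b)
    rw [hf1]
    show toLex (rk i, G i a) < toLex (rk j, G j b)
    rw [Prod.Lex.toLex_lt_toLex]
    exact Or.inl hij
  · have h1 := ((hf2 l (fun a => nm (z a).1 (z a).2)).1 hz).2 a b
    rcases h1 with h1 | h1
    · exact congrArg Sigma.fst h1
    · exact h1.1

end Pool.Agent.H13.AR
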